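import Pool.Agent.MP_3ee8cb_gt.H27.Minty

/-! Volume comparison for functions semiconcave in one variable and convex in the other. -/

namespace Pool.Agent.MP_3ee8cb_gt.H27

open Set Filter Topology MeasureTheory MeasureTheory.Measure Module
open scoped RealInnerProductSpace NNReal ENNReal

theorem sv_null {G : Type*} [NormedAddCommGroup G] [NormedSpace ℝ G] [FiniteDimensional ℝ G]
    [MeasurableSpace G] [BorelSpace G] (μ : Measure G) [IsAddHaarMeasure μ] {K : ℝ≥0}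
    {f : G → G} (hf : LipschitzWith K f) {s : Set G} (hs : μ s = 0) : μ (f '' s) = 0 := by
  have h1 : (μH[finrank ℝ G] : Measure G) s = 0 :=
    absolutelyContinuous_isAddHaarMeasure (μH[finrank ℝ G] : Measure G) μ hs
  have h2 := hf.hausdorffMeasure_image_le (d := finrank ℝ G) (Nat.cast_nonneg _) s
  rw [h1, mul_zero, nonpos_iff_eq_zero] at h2
  exact absolutelyContinuous_isAddHaarMeasure μ (μH[finrank ℝ G] : Measure G) h2

theorem sv_invol {G : Type*} [AddCommGroup G] [Module ℝ G] (f : G →ₗ[ℝ] G)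
    (hf : ∀ x, f (f x) = x) : |LinearMap.det f| = 1 := by
  have h : f ∘ₗ f = LinearMap.id := LinearMap.ext hf
  have h2 := congrArg LinearMap.det h
  rw [LinearMap.det_comp, LinearMap.det_id] at h2
  rcases mul_self_eq_one_iff.1 h2 with h | h <;> simp [h]

variable {E : Type*} [NormedAddCommGroup E] [InnerProductSpace ℝ E] [FiniteDimensional ℝ E]

theorem sv_tri (X Y : E →ₗ[ℝ] E) :
    LinearMap.det ((Y.coprod X).prod (LinearMap.snd ℝ E E)) = LinearMap.det Y := by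
  classical
  let b := Module.finBasis ℝ E
  have h : LinearMap.toMatrix (b.prod b) (b.prod b) ((Y.coprod X).prod (LinearMap.snd ℝ E E)) =
      Matrix.fromBlocks (LinearMap.toMatrix b b Y) (LinearMap.toMatrix b b X) 0 1 := by
    ext (i | i) (j | j) <;>
      simp [LinearMap.toMatrix_apply, Matrix.one_apply, Finsupp.single_apply, eq_comm]
  rw [← LinearMap.det_toMatrix (b.prod b), h, Matrix.det_fromBlocks_zero₂₁, Matrix.det_one,
    mul_one, LinearMap.det_toMatrix]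

theorem sv_adj (X Y : E →ₗ[ℝ] E) (h : ∀ a b, ⟪X a, b⟫ = ⟪Y b, a⟫) :
    LinearMap.det X = LinearMap.det Y := by
  classical
  let b := stdOrthonormalBasis ℝ E
  rw [← LinearMap.det_toMatrix b.toBasis, ← LinearMap.det_toMatrix b.toBasis,
    ← Matrix.det_transpose]
  congr 1
  ext i j
  simp only [Matrix.transpose_apply, LinearMap.toMatrix_apply, OrthonormalBasis.coe_toBasis,
    OrthonormalBasis.coe_toBasis_repr_apply, OrthonormalBasis.repr_apply_apply]
  rw [real_inner_comm, h, real_inner_comm]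

theorem sv_det (L D₁ D₂ : E × E →L[ℝ] E × E) (C : ℝ)
    (hL : ∀ a b : E, ⟪(L (0, a)).1, b⟫ = ⟪(L (b, 0)).2, a⟫)
    (h₁ : ∀ z, D₁ z = (z.1 - (L z).1, -(L z).1 + C • (z.1 - (L z).1)))
    (h₂ : ∀ z, D₂ z = ((L z).2, z.2 - (L z).2)) : |D₁.det| = |D₂.det| := by
  let l : E × E →ₗ[ℝ] E × E := L
  let f := LinearMap.fst ℝ E E
  let s := LinearMap.snd ℝ E E
  let L11 := f ∘ₗ l ∘ₗ LinearMap.inl ℝ E E
  let L12 := f ∘ₗ l ∘ₗ LinearMap.inr ℝ E E
  let L21 := s ∘ₗ l ∘ₗ LinearMap.inl ℝ E E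
  let L22 := s ∘ₗ l ∘ₗ LinearMap.inr ℝ E E
  have hz : ∀ z : E × E, L z = L (z.1, 0) + L (0, z.2) := fun z => by
    rw [← map_add]; simp
  have e₁ : (D₁ : E × E →ₗ[ℝ] E × E) = (f.prod ((1 + C) • f - s)) ∘ₗ
      ((((-LinearMap.id : E →ₗ[ℝ] E) ∘ₗ L12).coprod (LinearMap.id - L11)).prod s) ∘ₗ
        (s.prod f) := by
    refine LinearMap.ext fun z => ?_
    rw [ContinuousLinearMap.coe_coe, h₁, hz]
    refine Prod.ext ?_ ?_
    · simp [L11, L12, l, f, s]; abel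
    · simp [L11, L12, l, f, s]; module
  have e₂ : (D₂ : E × E →ₗ[ℝ] E × E) = (f.prod (-s)) ∘ₗ (f.prod (f - s)) ∘ₗ
      ((L21.coprod L22).prod s) := by
    refine LinearMap.ext fun z => ?_
    rw [ContinuousLinearMap.coe_coe, h₂, hz]
    refine Prod.ext ?_ ?_
    · simp [L21, L22, l, f, s]
    · simp [L21, L22, l, f, s]
  have i₁ := sv_invol (f.prod ((1 + C) • f - s)) (fun z => by simp [f, s])
  have i₂ := sv_invol (s.prod f) (fun z => by simp [f, s])
  have i₃ := sv_invol (f.prod (-s)) (fun z => by simp [f, s])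
  have i₄ := sv_invol (f.prod (f - s)) (fun z => by simp [f, s])
  have i₅ := sv_invol (-LinearMap.id : E →ₗ[ℝ] E) (fun z => by simp)
  have a := sv_adj L12 L21 (fun a b => by simpa [L12, L21, l, f, s] using hL a b)
  rw [ContinuousLinearMap.det, ContinuousLinearMap.det, e₁, e₂]
  simp only [LinearMap.det_comp, abs_mul, i₁, i₂, i₃, i₄, s, sv_tri, i₅, a, one_mul, mul_one]

variable [MeasurableSpace E] [BorelSpace E]

theorem sv_bdd (μ : Measure (E × E)) [IsAddHaarMeasure μ] (A : Set (E × E))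
    (hA : MeasurableSet A) (P Q : E × E → E) (hP : ContinuousOn P A) (hQ : ContinuousOn Q A)
    (S : E × E → ℝ) (C R : ℝ)
    (hR : ∀ a ∈ A, ‖(WithLp.toLp 2 (-(P a - (2 * C) • a.1), a.2) : WithLp 2 (E × E))‖ ≤ R)
    (hx : ∀ a ∈ A, ∀ b ∈ A, S (b.1, a.2) ≤ S a + ⟪P a, b.1 - a.1⟫ + C * ‖b.1 - a.1‖ ^ 2)
    (hk : ∀ a ∈ A, ∀ b ∈ A, S a + ⟪Q a, b.2 - a.2⟫ ≤ S (a.1, b.2))
    (hi : InjOn (fun a => (a.2, Q a)) A) :
    μ ((fun a => (a.1, P a)) '' A) ≤ μ ((fun a => (a.2, Q a)) '' A) := by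
  let e := WithLp.prodContinuousLinearEquiv 2 ℝ E E
  obtain ⟨N, hN, hNa, hs⟩ := sv_minty (F := WithLp 2 (E × E)) A
    (fun a => WithLp.toLp 2 (a.1, Q a)) (fun a => WithLp.toLp 2 (-(P a - (2 * C) • a.1), a.2))
    (fun a => ⟪Q a, a.2⟫ - S a + C * ‖a.1‖ ^ 2) R hR (by
      intro a ha b hb
      have h1 := hx b hb a ha
      have h2 := hk a ha b hb
      rw [norm_sub_sq_real] at h1
      simp only [WithLp.prod_inner_apply,
        inner_sub_right, inner_neg_left, inner_sub_left, real_inner_smul_left,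
        real_inner_self_eq_norm_sq] at h1 h2 ⊢
      rw [real_inner_comm b.1 a.1] at h1
      rw [real_inner_comm (Q a) b.2, real_inner_comm (Q b) b.2]
      nlinarith)
  let M : E × E → E × E := fun z => e (N (e.symm z))
  obtain ⟨K, hM⟩ : ∃ K, LipschitzWith K M :=
    ⟨_, (e : WithLp 2 (E × E) →L[ℝ] E × E).lipschitz.comp
      (hN.comp (e.symm : E × E →L[ℝ] WithLp 2 (E × E)).lipschitz)⟩
  let ζ : E × E → E × E := fun a => (a.1 + -(P a - (2 * C) • a.1), Q a + a.2)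
  have hMa : ∀ a ∈ A, M (ζ a) = (-(P a - (2 * C) • a.1), a.2) := by
    intro a ha
    have : e.symm (ζ a) = WithLp.toLp 2 (a.1, Q a) +
      WithLp.toLp 2 (-(P a - (2 * C) • a.1), a.2) := rfl
    simp only [M]
    rw [this, hNa a ha]; rfl
  let Φ : E × E → E × E := fun z => (z.1 - (M z).1, -(M z).1 + (2 * C) • (z.1 - (M z).1))
  let Ψ : E × E → E × E := fun z => ((M z).2, z.2 - (M z).2)
  have hΦ : ∀ a ∈ A, Φ (ζ a) = (a.1, P a) := fun a ha => by
    simp only [Φ, hMa a ha]; simp [ζ]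
  have hΨ : ∀ a ∈ A, Ψ (ζ a) = (a.2, Q a) := fun a ha => by
    simp only [Ψ, hMa a ha]; simp [ζ]
  have hζ : InjOn ζ A := fun a ha b hb h => hi ha hb (by
    simp only [← hΨ a ha, ← hΨ b hb, h])
  have hZ : MeasurableSet (ζ '' A) := hA.image_of_continuousOn_injOn (by
    simp only [ζ]; fun_prop) hζ
  let D := {z | DifferentiableAt ℝ M z}
  have hD : MeasurableSet D := measurableSet_of_differentiableAt ℝ M
  have hD0 : μ Dᶜ = 0 := hM.ae_differentiableAt (μ := μ)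
  obtain ⟨K', hK'⟩ : ∃ K', LipschitzWith K' Φ := by
    let T : (E × E) × (E × E) →L[ℝ] E × E :=
      let p := (ContinuousLinearMap.fst ℝ E E).comp (ContinuousLinearMap.fst ℝ (E × E) (E × E))
      let q := (ContinuousLinearMap.fst ℝ E E).comp (ContinuousLinearMap.snd ℝ (E × E) (E × E))
      (p - q).prod (-q + (2 * C) • (p - q))
    exact ⟨_, T.lipschitz.comp (LipschitzWith.id.prodMk hM)⟩
  let f := ContinuousLinearMap.fst ℝ E E
  let s := ContinuousLinearMap.snd ℝ E E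
  let D₁ : E × E → E × E →L[ℝ] E × E := fun z => (f - f.comp (fderiv ℝ M z)).prod
    (-f.comp (fderiv ℝ M z) + (2 * C) • (f - f.comp (fderiv ℝ M z)))
  let D₂ : E × E → E × E →L[ℝ] E × E := fun z => (s.comp (fderiv ℝ M z)).prod
    (s - s.comp (fderiv ℝ M z))
  have d₁ : ∀ z ∈ ζ '' A ∩ D, HasFDerivWithinAt Φ (D₁ z) (ζ '' A ∩ D) z := by
    intro z hz
    have h := hz.2.hasFDerivAt.fst
    exact ((hasFDerivAt_fst.sub h).prodMk
      (h.neg.add ((hasFDerivAt_fst.sub h).const_smul (2 * C)))).hasFDerivWithinAt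
  have d₂ : ∀ z ∈ ζ '' A ∩ D, HasFDerivWithinAt Ψ (D₂ z) (ζ '' A ∩ D) z := by
    intro z hz
    have h := hz.2.hasFDerivAt.snd
    exact (h.prodMk (hasFDerivAt_snd.sub h)).hasFDerivWithinAt
  have dd : ∀ z ∈ ζ '' A ∩ D, |(D₁ z).det| = |(D₂ z).det| := by
    intro z hz
    refine sv_det (fderiv ℝ M z) _ _ (2 * C) (fun a b => ?_) (fun _ => rfl) (fun _ => rfl)
    have h0 : HasFDerivAt M (fderiv ℝ M z) (e (e.symm z)) := by
      rw [e.apply_symm_apply]; exact hz.2.hasFDerivAt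
    have h1 := (e.symm.hasFDerivAt (x := M (e (e.symm z)))).comp (e.symm z)
      (h0.comp (e.symm z) e.hasFDerivAt)
    have h2 : (e.symm ∘ M ∘ e) = N := by funext y; simp [M]
    rw [h2] at h1
    have h3 := hs _ _ h1 (WithLp.toLp 2 (0, a)) (WithLp.toLp 2 (b, 0))
    simpa [e] using h3
  have hiΨ : InjOn Ψ (ζ '' A ∩ D) := by
    rintro _ ⟨⟨a, ha, rfl⟩, -⟩ _ ⟨⟨b, hb, rfl⟩, -⟩ h
    rw [hΨ a ha, hΨ b hb] at h
    rw [hi ha hb h]
  calc μ ((fun a => (a.1, P a)) '' A) ≤ μ (Φ '' (ζ '' A ∩ D) ∪ Φ '' Dᶜ) := by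
        refine measure_mono ?_
        rintro _ ⟨a, ha, rfl⟩
        by_cases h : ζ a ∈ D
        · exact Or.inl ⟨ζ a, ⟨mem_image_of_mem _ ha, h⟩, hΦ a ha⟩
        · exact Or.inr ⟨ζ a, h, hΦ a ha⟩
    _ ≤ μ (Φ '' (ζ '' A ∩ D)) + μ (Φ '' Dᶜ) := measure_union_le _ _
    _ = μ (Φ '' (ζ '' A ∩ D)) := by rw [sv_null μ hK' hD0, add_zero]
    _ ≤ ∫⁻ z in ζ '' A ∩ D, ENNReal.ofReal |(D₁ z).det| ∂μ :=
        addHaar_image_le_lintegral_abs_det_fderiv μ (hZ.inter hD) d₁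
    _ = ∫⁻ z in ζ '' A ∩ D, ENNReal.ofReal |(D₂ z).det| ∂μ :=
        setLIntegral_congr_fun (hZ.inter hD) fun z hz => by simp only [dd z hz]
    _ ≤ μ (Ψ '' (ζ '' A ∩ D)) :=
        lintegral_abs_det_fderiv_le_addHaar_image μ (hZ.inter hD) d₂ hiΨ
    _ ≤ _ := by
        refine measure_mono ?_
        rintro _ ⟨_, ⟨⟨a, ha, rfl⟩, -⟩, rfl⟩
        exact ⟨a, ha, (hΨ a ha).symm⟩

/-- Step 5 (SV). `S` is semiconcave in the first variable with supergradient `P` and convex in the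
second with subgradient `Q`, tested on pairs of points of `A` only. -/
theorem sv (μ : Measure (E × E)) [IsAddHaarMeasure μ] (A : Set (E × E))
    (hA : MeasurableSet A) (P Q : E × E → E) (hP : ContinuousOn P A) (hQ : ContinuousOn Q A)
    (S : E × E → ℝ) (C : ℝ)
    (hx : ∀ a ∈ A, ∀ b ∈ A, S (b.1, a.2) ≤ S a + ⟪P a, b.1 - a.1⟫ + C * ‖b.1 - a.1‖ ^ 2)
    (hk : ∀ a ∈ A, ∀ b ∈ A, S a + ⟪Q a, b.2 - a.2⟫ ≤ S (a.1, b.2))
    (hi : InjOn (fun a => (a.2, Q a)) A) :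
    μ ((fun a => (a.1, P a)) '' A) ≤ μ ((fun a => (a.2, Q a)) '' A) := by
  let g : E × E → ℝ := fun a =>
    ‖(WithLp.toLp 2 (-(P a - (2 * C) • a.1), a.2) : WithLp 2 (E × E))‖
  have hg : ContinuousOn g A := by
    refine ContinuousOn.norm ((WithLp.prod_continuous_toLp 2 E E).comp_continuousOn ?_)
    fun_prop
  let B : ℕ → Set (E × E) := fun m => g ⁻¹' Iic (m : ℝ) ∩ A
  have hB : ∀ m, MeasurableSet (B m) := fun m => by
    obtain ⟨u, hu, h⟩ := continuousOn_iff_isClosed.1 hg (Iic (m : ℝ)) isClosed_Iic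
    simp only [B]
    rw [h]; exact hu.measurableSet.inter hA
  have hmono : Monotone fun m => (fun a => (a.1, P a)) '' B m := fun m n h =>
    image_mono (inter_subset_inter_left _ (preimage_mono (Iic_subset_Iic.2 (Nat.cast_le.2 h))))
  have hU : (fun a => (a.1, P a)) '' A = ⋃ m, (fun a => (a.1, P a)) '' B m := by
    rw [← image_iUnion]
    congr 1
    refine Subset.antisymm (fun a ha => ?_) (iUnion_subset fun m => inter_subset_right)
    obtain ⟨m, hm⟩ := exists_nat_ge (g a)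
    exact mem_iUnion.2 ⟨m, hm, ha⟩
  rw [hU, hmono.measure_iUnion]
  refine iSup_le fun m => ?_
  have hs : B m ⊆ A := inter_subset_right
  exact (sv_bdd μ (B m) (hB m) P Q (hP.mono hs) (hQ.mono hs) S C m (fun a ha => ha.1)
    (fun a ha b hb => hx a ha.2 b hb.2) (fun a ha b hb => hk a ha.2 b hb.2)
    (hi.mono hs)).trans (measure_mono (image_mono hs))

end Pool.Agent.MP_3ee8cb_gt.H27
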