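import Mathlib

/-! Minty parametrisation of a cyclically monotone family by the gradient of a Moreau envelope. -/

namespace Pool.Agent.MP_3ee8cb_gt.H27

open Set Filter Topology
open scoped RealInnerProductSpace

variable {F : Type*} [NormedAddCommGroup F] [InnerProductSpace ℝ F]

theorem sv_prox [FiniteDimensional ℝ F] (W : F → ℝ) (R : ℝ) (hR : 0 ≤ R)
    (hlip : ∀ x y, W x ≤ W y + R * ‖x - y‖)
    (hcvx : ∀ x y : F, ∀ t : ℝ, 0 ≤ t → t ≤ 1 → W (x + t • (y - x)) ≤ (1 - t) * W x + t * W y)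
    (z : F) : ∃ p, ∀ x, W p + ⟪z - p, x - p⟫ ≤ W x := by
  have hW : Continuous W := by
    refine (LipschitzWith.of_dist_le_mul (K := ⟨R, hR⟩) fun x y => ?_).continuous
    rw [Real.dist_eq, dist_eq_norm, abs_le]
    have h1 := hlip x y
    have h2 := hlip y x
    rw [norm_sub_rev] at h2
    change -(R * ‖x - y‖) ≤ W x - W y ∧ W x - W y ≤ R * ‖x - y‖
    constructor <;> linarith
  have hg : Continuous fun x => W x + ‖z - x‖ ^ 2 / 2 := by fun_prop
  have : ProperSpace F := FiniteDimensional.proper_real F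
  obtain ⟨p, hp⟩ := hg.exists_forall_le' z (by
    have : (Metric.closedBall z (2 * R))ᶜ ∈ cocompact F :=
      (isCompact_closedBall z (2 * R)).compl_mem_cocompact
    filter_upwards [this] with x hx
    simp only [mem_compl_iff, Metric.mem_closedBall, not_le, dist_eq_norm] at hx
    rw [norm_sub_rev] at hx
    have h1 := hlip z x
    simp only [sub_self, norm_zero]
    nlinarith [norm_nonneg (z - x)])
  refine ⟨p, fun x => ?_⟩
  refine le_of_forall_pos_le_add fun ε hε => ?_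
  set D := ‖x - p‖ ^ 2 with hD
  have hD0 : 0 ≤ D := by positivity
  set t := min 1 (ε / (D + 1)) with ht
  have ht0 : 0 < t := lt_min one_pos (by positivity)
  have ht1 : t ≤ 1 := min_le_left _ _
  have ht2 : t * (D + 1) ≤ ε := by
    have := min_le_right 1 (ε / (D + 1))
    rwa [← ht, le_div_iff₀ (by positivity)] at this
  have h1 := hp (p + t • (x - p))
  have h2 := hcvx p x t ht0.le ht1
  have h3 : ‖z - (p + t • (x - p))‖ ^ 2 = ‖z - p‖ ^ 2 - 2 * (t * ⟪z - p, x - p⟫) + t ^ 2 * D := by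
    rw [← sub_sub, norm_sub_sq_real, inner_smul_right, norm_smul, mul_pow, Real.norm_eq_abs, sq_abs]
  simp only [h3] at h1
  have h4 : t * (W p + ⟪z - p, x - p⟫) ≤ t * (W x + ε) := by nlinarith
  exact le_of_mul_le_mul_left h4 ht0

theorem sv_mono (W : F → ℝ) {p q p' q' : F} (h : ∀ x, W p + ⟪q, x - p⟫ ≤ W x)
    (h' : ∀ x, W p' + ⟪q', x - p'⟫ ≤ W x) : ‖q - q'‖ ≤ ‖(p + q) - (p' + q')‖ := by
  have h1 := h p'
  have h2 := h' p
  have h3 : 0 ≤ ⟪q - q', p - p'⟫ := by
    rw [inner_sub_left]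
    have : ⟪q, p' - p⟫ = -⟪q, p - p'⟫ := by rw [← inner_neg_right, neg_sub]
    linarith
  have h4 : ‖q - q'‖ ^ 2 ≤ ‖q - q'‖ * ‖(p + q) - (p' + q')‖ := by
    have e : (p + q) - (p' + q') = (p - p') + (q - q') := by abel
    calc ‖q - q'‖ ^ 2 ≤ ⟪q - q', (p + q) - (p' + q')⟫ := by
          rw [e, inner_add_right, real_inner_self_eq_norm_sq]; linarith
      _ ≤ _ := real_inner_le_norm _ _
  rcases (norm_nonneg (q - q')).eq_or_lt with h0 | h0
  · rw [← h0]; exact norm_nonneg _
  · rw [sq] at h4; exact le_of_mul_le_mul_left h4 h0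

theorem sv_minty [FiniteDimensional ℝ F] {ι : Type*} (A : Set ι) (u w : ι → F) (c : ι → ℝ)
    (R : ℝ) (hR : ∀ a ∈ A, ‖w a‖ ≤ R)
    (hc : ∀ a ∈ A, ∀ b ∈ A, c b + ⟪w b, u a - u b⟫ ≤ c a) :
    ∃ N : F → F, LipschitzWith 1 N ∧ (∀ a ∈ A, N (u a + w a) = w a) ∧
      ∀ (z : F) (L : F →L[ℝ] F), HasFDerivAt N L z → ∀ h k, ⟪L h, k⟫ = ⟪L k, h⟫ := by
  rcases A.eq_empty_or_nonempty with rfl | ⟨a0, ha0⟩
  · refine ⟨fun _ => 0, (LipschitzWith.const 0).weaken zero_le_one, by simp, fun z L hL h k => ?_⟩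
    rw [hL.unique (hasFDerivAt_const 0 z)]; simp
  have : Nonempty A := ⟨⟨a0, ha0⟩⟩
  have hR0 : 0 ≤ R := (norm_nonneg _).trans (hR a0 ha0)
  let l : F → A → ℝ := fun x b => c b + ⟪w b, x - u b⟫
  have hl : ∀ x y (b : A), l x b ≤ l y b + R * ‖x - y‖ := by
    intro x y b
    have e : x - u b = (y - u b) + (x - y) := by abel
    have h1 : ⟪w b, x - y⟫ ≤ R * ‖x - y‖ :=
      (real_inner_le_norm _ _).trans (mul_le_mul_of_nonneg_right (hR b b.2) (norm_nonneg _))
    simp only [l]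
    rw [e, inner_add_right]; linarith
  have hb : ∀ x, BddAbove (range (l x)) := by
    intro x
    refine ⟨c a0 + R * ‖x - u a0‖, ?_⟩
    rintro _ ⟨b, rfl⟩
    have h1 := hl x (u a0) b
    have h2 := hc a0 ha0 b b.2
    simp only [l] at h1 ⊢
    linarith
  let W : F → ℝ := fun x => ⨆ b, l x b
  have hW : ∀ x b, l x b ≤ W x := fun x b => le_ciSup (hb x) b
  have hlip : ∀ x y, W x ≤ W y + R * ‖x - y‖ := fun x y =>
    ciSup_le fun b => (hl x y b).trans (by linarith [hW y b])
  have hcvx : ∀ x y : F, ∀ t : ℝ, 0 ≤ t → t ≤ 1 →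
      W (x + t • (y - x)) ≤ (1 - t) * W x + t * W y := by
    intro x y t h0 h1
    refine ciSup_le fun b => ?_
    have e : l (x + t • (y - x)) b = (1 - t) * l x b + t * l y b := by
      simp only [l, inner_sub_right, inner_add_right, inner_smul_right]; ring
    rw [e]
    have := hW x b
    have := hW y b
    gcongr
  have hWa : ∀ a ∈ A, ∀ x, W (u a) + ⟪w a, x - u a⟫ ≤ W x := by
    intro a ha x
    have h1 : W (u a) ≤ c a := ciSup_le fun b => hc a ha b b.2
    have h2 := hW x ⟨a, ha⟩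
    simp only [l] at h2
    linarith
  choose p hp using sv_prox W R hR0 hlip hcvx
  have hN : ∀ z z', ‖(z - p z) - (z' - p z')‖ ≤ ‖z - z'‖ := by
    intro z z'
    simpa using sv_mono W (hp z) (hp z')
  refine ⟨fun z => z - p z, LipschitzWith.of_dist_le_mul fun z z' => ?_, fun a ha => ?_,
    fun z L hL h k => ?_⟩
  · simpa [dist_eq_norm] using hN z z'
  · have := sv_mono W (hp (u a + w a)) (hWa a ha)
    simp only [add_sub_cancel, sub_self, norm_zero, norm_le_zero_iff, sub_eq_zero] at this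
    exact this
  let e : F → ℝ := fun z => W (p z) + ‖z - p z‖ ^ 2 / 2
  have he : ∀ z z', e z' - e z ≤ ⟪z' - p z', z' - z⟫ := by
    intro z z'
    have h1 := hp z' (p z)
    have e1 : p z - p z' = ((z' - p z') - (z - p z)) - (z' - z) := by abel
    rw [e1, inner_sub_right, inner_sub_right (z' - p z') (z' - p z'),
      real_inner_self_eq_norm_sq] at h1
    have h2 := norm_sub_sq_real (z' - p z') (z - p z)
    simp only [e]
    nlinarith [sq_nonneg ‖(z' - p z') - (z - p z)‖]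
  let B : F →L[ℝ] F →L[ℝ] ℝ := innerSL ℝ
  have hB : ∀ x y, B x y = ⟪x, y⟫ := fun x y => rfl
  have hd : ∀ y, HasFDerivAt e (B (y - p y)) y := by
    intro y
    rw [hasFDerivAt_iff_isLittleO]
    refine Asymptotics.IsBigO.trans_isLittleO (g := fun x => ‖x - y‖ ^ 2) ?_
      (Asymptotics.isLittleO_pow_sub_sub y one_lt_two)
    refine Asymptotics.IsBigO.of_bound 1 (Eventually.of_forall fun x => ?_)
    have h1 := he y x
    have h2 := he x y
    have h3 : ⟪y - p y, y - x⟫ = -⟪y - p y, x - y⟫ := by rw [← inner_neg_right, neg_sub]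
    have h4 : ⟪(x - p x) - (y - p y), x - y⟫ ≤ ‖x - y‖ ^ 2 :=
      (real_inner_le_norm _ _).trans (by
        rw [sq]; exact mul_le_mul_of_nonneg_right (hN x y) (norm_nonneg _))
    rw [inner_sub_left] at h4
    rw [hB, Real.norm_eq_abs, Real.norm_eq_abs, one_mul, abs_of_nonneg (by linarith),
      abs_of_nonneg (by positivity)]
    linarith
  have := second_derivative_symmetric_of_eventually_of_real (f := e)
    (f' := fun y => B (y - p y)) (f'' := B.comp L) (Eventually.of_forall hd)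
    (B.hasFDerivAt.comp z hL) h k
  simpa [hB] using this

end Pool.Agent.MP_3ee8cb_gt.H27
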